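import Mathlib
import Pool.Agent.Helper39.SX.FinalX
import Pool.Agent.Helper39.SX.NumX

/-!
# Sparsifiers for the intersection of `k` arbitrary matroids with arbitrary weights
-/

set_option autoImplicit false

namespace Pool.Agent.Results.MP_3fccc5_lc.AllWeights

/-- The common independent sets. -/
def Common {E : Type} {k : ℕ} (M : Fin k → Matroid E) (S : Finset E) : Prop :=
  ∀ i, (M i).Indep (S : Set E)

/-- `OPT(A)`: the largest weight of a common independent set contained in `A`. -/
noncomputable def opt {E : Type} {k : ℕ} (M : Fin k → Matroid E) (w : E → ℝ)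
    (A : Finset E) : ℝ :=
  sSup {t : ℝ | ∃ S : Finset E, S ⊆ A ∧ Common M S ∧ t = ∑ e ∈ S, w e}

/-- The rank: the largest cardinality of a common independent set. -/
noncomputable def rank {E : Type} {k : ℕ} (M : Fin k → Matroid E) : ℕ :=
  sSup {n : ℕ | ∃ S : Finset E, Common M S ∧ n = S.card}

/-- The expectation of `f R` for the random set `R` which contains each element of `E`
independently with probability `p`. -/
noncomputable def expect {E : Type} [Fintype E] (p : ℝ) (f : Finset E → ℝ) : ℝ :=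
  ∑ R : Finset E, p ^ R.card * (1 - p) ^ (Fintype.card E - R.card) * f R

open Pool.Agent.Helper68.SP

private lemma expect_eq {E : Type} [Fintype E] [DecidableEq E] (p : ℝ) (f : Finset E → ℝ) :
    expect p f = Ex (fun _ => p) f := by
  unfold expect Ex wt
  refine Finset.sum_congr rfl fun R _ => ?_
  congr 1
  rw [← Finset.prod_sdiff (Finset.subset_univ R)]
  have h1 : ∏ e ∈ Finset.univ \ R, (if e ∈ R then p else 1 - p) =
      (1 - p) ^ (Fintype.card E - R.card) := by
    rw [Finset.prod_congr rfl (g := fun _ => 1 - p)]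
    · rw [Finset.prod_const, Finset.card_sdiff_of_subset (Finset.subset_univ R),
        Finset.card_univ]
    · intro e he
      rw [if_neg (Finset.mem_sdiff.1 he).2]
  have h2 : ∏ e ∈ R, (if e ∈ R then p else 1 - p) = p ^ R.card := by
    rw [Finset.prod_congr rfl (g := fun _ => p)]
    · rw [Finset.prod_const]
    · intro e he
      rw [if_pos he]
  rw [h1, h2, mul_comm]

/-- **Theorem.** For all `k ≥ 1` and `ε > 0` there is a constant `C` such that for arbitrary
matroids `M_1, ..., M_k` of any rank on a finite set `E`, all weights `w ≥ 0` and all `p ∈ (0, 1]`,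
some set `Q` with at most `(C / p ^ 2) * (1 + log (1 / p)) * rank` elements satisfies
`E OPT(Q ∩ R) ≥ (1 - ε) * (a / (1 + a)) * E OPT(R)` with `a = log_2 (1 + 1 / k)`, and therefore
`E OPT(Q ∩ R) ≥ ((1 - ε) / (k - 1)) * E OPT(R)` if `k ≥ 8`. -/
theorem result (k : ℕ) (hk : 1 ≤ k) (ε : ℝ) (hε : 0 < ε) :
    ∃ C : ℝ, 0 < C ∧ ∀ (E : Type) [Fintype E] [DecidableEq E] (M : Fin k → Matroid E)
      (w : E → ℝ), (∀ e, 0 ≤ w e) → ∀ p : ℝ, 0 < p → p ≤ 1 →
      ∃ Q : Finset E,
        (Q.card : ℝ) ≤ C / p ^ 2 * (1 + Real.log (1 / p)) * (rank M : ℝ) ∧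
        (1 - ε) * (Real.logb 2 (1 + 1 / (k : ℝ)) / (1 + Real.logb 2 (1 + 1 / (k : ℝ)))) *
            expect p (opt M w) ≤ expect p (fun R => opt M w (Q ∩ R)) ∧
        (8 ≤ k → (1 - ε) / ((k : ℝ) - 1) * expect p (opt M w) ≤
          expect p (fun R => opt M w (Q ∩ R))) := by
  classical
  obtain ⟨C, hC, hmain⟩ := Pool.Agent.Helper39.SX.weighted_x hk hε
  refine ⟨C, hC, ?_⟩
  intro E _ instE M w hw p hp hp1
  obtain ⟨Q, hQ1, hQ2⟩ := hmain E M w hw p hp hp1
  have hrate : IsRate (fun _ : E => p) := fun _ => ⟨hp.le, hp1⟩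
  have h0 : ∀ A : Finset E, 0 ≤ opt M w A := fun A =>
    Pool.Agent.Helper39.SR.opt_nonneg (Com := fun S : Finset E => ∀ i, (M i).Indep (S : Set E))
      (w := w) (fun i => by simp) A
  have h1 : 0 ≤ Ex (fun _ : E => p) (opt M w) := Ex_nonneg hrate h0
  have h2 : 0 ≤ Ex (fun _ : E => p) (fun R => opt M w (Q ∩ R)) :=
    Ex_nonneg hrate fun R => h0 _
  have h3 : (1 - ε) * (Real.logb 2 (1 + 1 / (k : ℝ)) / (1 + Real.logb 2 (1 + 1 / (k : ℝ)))) *
      Ex (fun _ : E => p) (opt M w) ≤
      Ex (fun _ : E => p) (fun R => opt M w (Q ∩ R)) := hQ2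
  refine ⟨Q, hQ1, ?_, ?_⟩
  · rw [expect_eq, expect_eq]
    exact h3
  · intro hk8
    rw [expect_eq, expect_eq]
    rcases le_or_gt ε 1 with hle | hgt
    · refine le_trans (mul_le_mul_of_nonneg_right ?_ h1) h3
      rw [div_eq_mul_inv, ← one_div]
      exact mul_le_mul_of_nonneg_left (Pool.Agent.Helper39.SX.num_x hk8) (by linarith)
    · refine le_trans ?_ h2
      refine mul_nonpos_of_nonpos_of_nonneg ?_ h1
      have hk8R : (8 : ℝ) ≤ k := by exact_mod_cast hk8
      exact div_nonpos_of_nonpos_of_nonneg (by linarith) (by linarith)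

end Pool.Agent.Results.MP_3fccc5_lc.AllWeights
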