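import Mathlib
import Pool.Agent.Helper68.SP.Derand

/-!
# Sparsifiers of linear degree for the intersection of `k` partition matroids
-/

set_option autoImplicit false

namespace Pool.Agent.Results.MP_3fccc5_lc.PartitionMatroids

/-- A partition matroid on `E` with capacities at most one: there are a class map `c` and capacities
`cap j ≤ 1`, and a set is independent if and only if it contains at most `cap j` elements of the
class number `j`, for every `j`. -/
def IsPartition {E : Type} [DecidableEq E] (M : Matroid E) : Prop :=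
  M.E = Set.univ ∧ ∃ (c : E → ℕ) (cap : ℕ → ℕ), (∀ j, cap j ≤ 1) ∧
    ∀ S : Finset E, M.Indep (S : Set E) ↔ ∀ j, (S.filter (fun e => c e = j)).card ≤ cap j

/-- The common independent sets. -/
def Common {E : Type} {k : ℕ} (M : Fin k → Matroid E) (S : Finset E) : Prop :=
  ∀ i, (M i).Indep (S : Set E)

/-- `OPT(A)`: the largest weight of a common independent set contained in `A`. -/
noncomputable def opt {E : Type} {k : ℕ} (M : Fin k → Matroid E) (w : E → ℝ)
    (A : Finset E) : ℝ :=
  sSup {t : ℝ | ∃ S : Finset E, S ⊆ A ∧ Common M S ∧ t = ∑ e ∈ S, w e}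

/-- The rank: the largest cardinality of a common independent set. -/
noncomputable def rank {E : Type} {k : ℕ} (M : Fin k → Matroid E) : ℕ :=
  sSup {n : ℕ | ∃ S : Finset E, Common M S ∧ n = S.card}

/-- The expectation of `f R` for the random set `R` which contains each element of `E`
independently with probability `p`. -/
noncomputable def expect {E : Type} [Fintype E] (p : ℝ) (f : Finset E → ℝ) : ℝ :=
  ∑ R : Finset E, p ^ R.card * (1 - p) ^ (Fintype.card E - R.card) * f R

open Pool.Agent.Helper68.SP

private lemma expect_eq {E : Type} [Fintype E] [DecidableEq E] (p : ℝ) (f : Finset E → ℝ) :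
    expect p f = Ex (fun _ => p) f := by
  unfold expect Ex wt
  refine Finset.sum_congr rfl fun R _ => ?_
  congr 1
  rw [← Finset.prod_sdiff (Finset.subset_univ R)]
  have h1 : ∏ e ∈ Finset.univ \ R, (if e ∈ R then p else 1 - p) =
      (1 - p) ^ (Fintype.card E - R.card) := by
    rw [Finset.prod_congr rfl (g := fun _ => 1 - p)]
    · rw [Finset.prod_const, Finset.card_sdiff_of_subset (Finset.subset_univ R),
        Finset.card_univ]
    · intro e he
      rw [if_neg (Finset.mem_sdiff.1 he).2]
  have h2 : ∏ e ∈ R, (if e ∈ R then p else 1 - p) = p ^ R.card := by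
    rw [Finset.prod_congr rfl (g := fun _ => p)]
    · rw [Finset.prod_const]
    · intro e he
      rw [if_pos he]
  rw [h1, h2, mul_comm]

/-- **Theorem.** For all `k ≥ 2` and `ε > 0` there is a constant `C` such that for all partition
matroids `M_1, ..., M_k` (capacities at most one) on a finite set `E`, all nonnegative weights and
all `p ∈ (0, 1]` some set `Q` with at most `(C / p) * rank` elements satisfies
`E OPT(Q ∩ R) ≥ ((1 - ε) / (k - 1)) * E OPT(R)`. -/
theorem result (k : ℕ) (hk : 2 ≤ k) (ε : ℝ) (hε : 0 < ε) :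
    ∃ C : ℝ, 0 < C ∧ ∀ (E : Type) [Fintype E] [DecidableEq E] (M : Fin k → Matroid E),
      (∀ i, IsPartition (M i)) → ∀ w : E → ℝ, (∀ e, 0 ≤ w e) → ∀ p : ℝ, 0 < p → p ≤ 1 →
      ∃ Q : Finset E, (Q.card : ℝ) ≤ C / p * (rank M : ℝ) ∧
        (1 - ε) / ((k : ℝ) - 1) * expect p (opt M w) ≤
          expect p (fun R => opt M w (Q ∩ R)) := by
  classical
  obtain ⟨C, hC, hmain⟩ := det_sparsifier k hk ε hε
  refine ⟨C, hC, ?_⟩
  intro E _ instE M hM w hw p hp hp1
  have hM2 : ∀ i, ∃ (c : E → ℕ) (cap : ℕ → ℕ), (∀ j, cap j ≤ 1) ∧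
    ∀ S : Finset E, (M i).Indep (S : Set E) ↔ ∀ j, (S.filter (fun e => c e = j)).card ≤ cap j := by
    intro i
    obtain ⟨-, c, cap, h1, h2⟩ := hM i
    exact ⟨c, cap, h1, h2⟩
  choose c cap hcap hind using hM2
  -- the elements which are not loops
  let P : E → Prop := fun e => ∀ i, cap i (c i e) = 1
  have hcommon : ∀ S : Finset E, Common M S ↔ (∀ e ∈ S, P e) ∧ ∀ i, Set.InjOn (c i) (S : Set E) := by
    intro S
    constructor
    · intro h
      refine ⟨?_, ?_⟩
      · intro e he i
        have h1 := (hind i S).1 (h i) (c i e)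
        have h2 : 1 ≤ (S.filter (fun e' => c i e' = c i e)).card :=
          Finset.card_pos.2 ⟨e, Finset.mem_filter.2 ⟨he, rfl⟩⟩
        have h3 := hcap i (c i e)
        omega
      · intro i a ha b hb hab
        have h1 := (hind i S).1 (h i) (c i b)
        have h3 := hcap i (c i b)
        have h4 : (S.filter (fun e' => c i e' = c i b)).card ≤ 1 := h1.trans h3
        rw [Finset.card_le_one] at h4
        exact h4 a (Finset.mem_filter.2 ⟨ha, hab⟩) b (Finset.mem_filter.2 ⟨hb, rfl⟩)
    · rintro ⟨h1, h2⟩ i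
      rw [hind i S]
      intro j
      rcases (S.filter (fun e' => c i e' = j)).eq_empty_or_nonempty with h3 | ⟨e, he⟩
      · rw [h3]
        simp
      · rw [Finset.mem_filter] at he
        have h4 := h1 e he.1 i
        rw [he.2] at h4
        rw [h4, Finset.card_le_one]
        intro a ha b hb
        rw [Finset.mem_filter] at ha hb
        exact h2 i ha.1 hb.1 (ha.2.trans hb.2.symm)
  -- the restricted instance
  let D : Type := {e : E // P e}
  let N : ℕ := ∑ i, ∑ e, c i e
  have hN : ∀ i e, c i e < N + 1 := by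
    intro i e
    have h1 : c i e ≤ ∑ e', c i e' := Finset.single_le_sum (fun _ _ => Nat.zero_le _) (Finset.mem_univ e)
    have h2 : ∑ e', c i e' ≤ N :=
      Finset.single_le_sum (f := fun i => ∑ e', c i e') (fun _ _ => Nat.zero_le _) (Finset.mem_univ i)
    omega
  let cD : Fin k → D → Fin (N + 1) := fun i e => ⟨c i e.1, hN i e.1⟩
  let wD : D → ℝ := fun e => w e.1
  let φ : D → E := Subtype.val
  have hφ : Function.Injective φ := Subtype.val_injective
  obtain ⟨Q, hQ1, hQ2⟩ := hmain D (Fin (N + 1)) cD wD p (fun e => hw e.1) hp hp1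
  -- translation of matchings
  have hmap : ∀ S : Finset D, IsMatching cD S → Common M (S.map ⟨φ, hφ⟩) := by
    intro S hS
    rw [hcommon]
    refine ⟨?_, ?_⟩
    · intro e he
      rw [Finset.mem_map] at he
      obtain ⟨a, -, rfl⟩ := he
      exact a.2
    · intro i a ha b hb hab
      rw [Finset.mem_coe, Finset.mem_map] at ha hb
      obtain ⟨a', ha', rfl⟩ := ha
      obtain ⟨b', hb', rfl⟩ := hb
      have : cD i a' = cD i b' := Fin.ext hab
      rw [hS i ha' hb' this]
  have hpre : ∀ S : Finset E, Common M S → IsMatching cD (S.preimage φ hφ.injOn) ∧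
      (S.preimage φ hφ.injOn).map ⟨φ, hφ⟩ = S := by
    intro S hS
    rw [hcommon] at hS
    refine ⟨?_, ?_⟩
    · intro i a ha b hb hab
      rw [Finset.mem_coe, Finset.mem_preimage] at ha hb
      have : c i (φ a) = c i (φ b) := congrArg Fin.val hab
      exact hφ (hS.2 i ha hb this)
    · ext e
      rw [Finset.mem_map]
      constructor
      · rintro ⟨a, ha, rfl⟩
        exact Finset.mem_preimage.1 ha
      · intro he
        exact ⟨⟨e, hS.1 e he⟩, Finset.mem_preimage.2 he, rfl⟩
  have hopt : ∀ A : Finset E, opt M w A = optM cD wD (A.preimage φ hφ.injOn) := by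
    intro A
    unfold opt optM
    congr 1
    ext t
    constructor
    · rintro ⟨S, hSA, hS, rfl⟩
      refine ⟨S.preimage φ hφ.injOn, ?_, (hpre S hS).1, ?_⟩
      · intro a ha
        rw [Finset.mem_preimage] at ha ⊢
        exact hSA ha
      · conv_lhs => rw [← (hpre S hS).2]
        rw [Finset.sum_map]
        rfl
    · rintro ⟨S, hSA, hS, rfl⟩
      refine ⟨S.map ⟨φ, hφ⟩, ?_, hmap S hS, ?_⟩
      · intro e he
        rw [Finset.mem_map] at he
        obtain ⟨a, ha, rfl⟩ := he
        exact Finset.mem_preimage.1 (hSA ha)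
      · rw [Finset.sum_map]
        rfl
  have hrank : rank M = rankM cD := by
    unfold rank rankM
    congr 1
    ext n
    constructor
    · rintro ⟨S, hS, rfl⟩
      refine ⟨S.preimage φ hφ.injOn, (hpre S hS).1, ?_⟩
      conv_lhs => rw [← (hpre S hS).2]
      rw [Finset.card_map]
    · rintro ⟨S, hS, rfl⟩
      exact ⟨S.map ⟨φ, hφ⟩, hmap S hS, by rw [Finset.card_map]⟩
  refine ⟨Q.map ⟨φ, hφ⟩, ?_, ?_⟩
  · rw [Finset.card_map, hrank]
    exact hQ1
  · rw [expect_eq, expect_eq]
    have h1 : Ex (fun _ => p) (opt M w) = Ex (fun _ => p) (optM cD wD) := by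
      rw [Ex_congr _ hopt]
      exact Ex_preimage φ hφ (fun _ => p) (optM cD wD)
    have h2 : Ex (fun _ => p) (fun R => opt M w (Q.map ⟨φ, hφ⟩ ∩ R)) =
        Ex (fun _ => p) (fun R => optM cD wD (Q ∩ R)) := by
      rw [← Ex_preimage φ hφ (fun _ => p) (fun R => optM cD wD (Q ∩ R))]
      refine Ex_congr _ fun R => ?_
      rw [hopt]
      congr 1
      ext a
      rw [Finset.mem_preimage, Finset.mem_inter, Finset.mem_inter, Finset.mem_preimage]
      constructor
      · rintro ⟨h3, h4⟩
        rw [Finset.mem_map] at h3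
        obtain ⟨b, hb, hb2⟩ := h3
        have : b = a := hφ hb2
        exact ⟨this ▸ hb, h4⟩
      · rintro ⟨h3, h4⟩
        exact ⟨Finset.mem_map.2 ⟨a, h3, rfl⟩, h4⟩
    rw [h1, h2]
    exact hQ2

end Pool.Agent.Results.MP_3fccc5_lc.PartitionMatroids
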